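import Mathlib
import Pool.Agent.H22.InclDefs
import Pool.Agent.H22.Incl

set_option autoImplicit false

open Pool.Agent.H22.Incl in
/-- Some finite semigroup generates an inclusive variety with infinitely many inclusive
subvarieties. -/
theorem Pool.Agent.Results.MP_ea093d_al.InfiniteLattice.result :
    ∃ S : Semigrp.{0}, Finite S ∧ {K | IsInclusiveVariety K ∧ K ⊆ Generated S}.Infinite :=
  infinite_sub
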